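import Pool.Agent.J6H2.WM.Deg2

/-!
# MP_0f76a4_ag: weight-monodromy in degree i for all primes l with maximal i-th Betti number
-/

set_option autoImplicit false

open Module

namespace Pool.Agent.Results.MP_0f76a4_ag.AllPrimes

open Pool.Agent.J6H2.WM Pool.Agent.J6H2.CL

/-- **Weight-monodromy in degree `i` for all primes `l` for which the `i`-th Betti number is maximal.**
Let `X` be a smooth rigid-analytic variety of dimension `n` over a `p`-adic local field with residue
field of `q` elements, with a strictly semistable formal model whose special fibre is projective.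
`𝒪` is the system of the first terms of the `l`-adic weight spectral sequences, for the primes
`l ≠ p`. Suppose `𝒪.Good p q n` (the known properties; the image of the projector `π` is polarised;
the part of every term killed by `π` is multiplicity free for an operator commuting with `d` and `δ`
which has its complex conjugate as adjoint, for example the Frobenius operator), and `𝒪.Rational p`:
the traces of the words in the operators are rational and independent of `l` (true if the Lefschetz
operators `Λ` of the strata and `π` are algebraic, by Katz and Messing).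

Then there are numbers `D i` such that for all `l ≠ p` and all `i` the dimension of
`H = H^i(X_C, ℚ_l)` is at most `D i`, and if it is `D i` then the eigenvalues of Frobenius lifts on
`gr^M_j H` are `q`-Weil numbers of weight `i + j`, for all `j`; and for the primes `l` in a set of
positive density it is `D i` for all `i`. In particular, if the `i`-th Betti number does not depend on
`l` (as for all algebraic `X`), then weight-monodromy holds in degree `i` for all primes `l ≠ p`. -/
theorem result {p q n : ℕ} (𝒪 : Family) (h : 𝒪.Good p q n) (hR : 𝒪.Rational p) : ∃ D : ℤ → ℕ,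
    (∀ (l : ℕ) [Fact l.Prime], l ≠ p → ∀ (i : ℤ) (H : Type) [AddCommGroup H] [Module ℚ_[l] H]
      (Φ N : End ℚ_[l] H) (ρ : 𝒪.V l →ₗ[ℚ_[l]] H), (𝒪.O l).Computes (i - n) Φ N ρ →
      finrank ℚ_[l] H ≤ D i ∧ (finrank ℚ_[l] H = D i → MWPure q i Φ N)) ∧
    ∃ (S : Set ℕ) (δ : ℝ), 0 < δ ∧ HasPrimeDensity S δ ∧
      ∀ (l : ℕ) [Fact l.Prime], l ∈ S → l ≠ p → ∀ (i : ℤ) (H : Type) [AddCommGroup H]
        [Module ℚ_[l] H] (Φ N : End ℚ_[l] H) (ρ : 𝒪.V l →ₗ[ℚ_[l]] H),
        (𝒪.O l).Computes (i - n) Φ N ρ → finrank ℚ_[l] H = D i :=
  resG h hR

end Pool.Agent.Results.MP_0f76a4_ag.AllPrimes
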