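import Pool.Agent.J6H2.WM.Deg2

/-!
# MP_0f76a4_ag: numerical criteria, independent of l
-/

set_option autoImplicit false

open Module Polynomial

namespace Pool.Agent.Results.MP_0f76a4_ag.LaplaceCriterion

open Pool.Agent.J6H2.WM

/-- **Numerical criteria for weight-monodromy, independent of `l`.** Let `X` be a smooth
rigid-analytic variety of dimension `n` over a `p`-adic local field with residue field of `q`
elements, with a strictly semistable formal model with projective special fibre, such that the
Lefschetz operators `Λ` of the strata of the special fibre are algebraic. Then (Katz and Messing)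
the traces `t a` of all words `a` in the operators on the first term of the weight spectral sequence
are rational intersection numbers, the same for all primes `l ≠ p` and for crystalline cohomology.
Let `Δ = d δ + δ d` with `δ = [Λ, [N', d]]`.

There are monic rational polynomials `f` and `g i`, depending only on these numbers, such that for
every such theory `O` (`l`-adic or `p`-adic):

* `f` is the characteristic polynomial of `Δ`, and `g i` is the one of `Δ` on the sum of the terms
  which compute `H^i(X)`;
* the sum `B` of the Betti numbers of `X` is at most `ord_0 f`, and it is equal to `ord_0 f` if and only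
  if `ker (δ d) = ker d`; so this property of one theory carries over to all the others with the same
  sum of the Betti numbers;
* for every `i` the dimension of `H^i(X)` is at most `ord_0 (g i)`; it is equal to it if
  `ker (δ d) = ker d`; and if it is equal to `ord_0 (g i)` (for one given `i`) then `H^i(X)` is
  monodromy-weight pure. -/
theorem result (q n : ℕ) (t : List Letter → ℚ) : ∃ (f : ℚ[X]) (g : ℤ → ℚ[X]), f.Monic ∧
    (∀ i, (g i).Monic) ∧
    ∀ (K V : Type) [Field K] [CharZero K] [AddCommGroup V] [Module K V]
      [FiniteDimensional K V] (O : Ops K V), O.Valid q n →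
      (∀ a, LinearMap.trace K V (O.word a) = t a) →
      O.Δ.charpoly = f.map (algebraMap ℚ K) ∧
      (∀ B : ℕ, O.Betti B → B ≤ f.rootMultiplicity 0 ∧
        ((∀ z, O.δ (O.d z) = 0 → O.d z = 0) ↔ f.rootMultiplicity 0 = B)) ∧
      ∀ i : ℤ,
        (∃ h : ∀ x ∈ O.deg (i - n), O.Δ x ∈ O.deg (i - n),
          (O.Δ.restrict h).charpoly = (g i).map (algebraMap ℚ K)) ∧
        ∀ (H : Type) [AddCommGroup H] [Module K H] (Φ N : End K H) (ρ : V →ₗ[K] H),
          O.Computes (i - n) Φ N ρ →
          finrank K H ≤ (g i).rootMultiplicity 0 ∧
          ((∀ z, O.δ (O.d z) = 0 → O.d z = 0) → finrank K H = (g i).rootMultiplicity 0) ∧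
          (finrank K H = (g i).rootMultiplicity 0 → O.Pure q n → MWPure q i Φ N) :=
  resH q n t

end Pool.Agent.Results.MP_0f76a4_ag.LaplaceCriterion
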