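import Pool.Agent.J6H2.WM.Thy

/-!
# MP_0f76a4_ag: weight-monodromy for rigid-analytic varieties, for many primes l
-/

set_option autoImplicit false

namespace Pool.Agent.Results.MP_0f76a4_ag.PrimesOfPositiveDensity

open Pool.Agent.J6H2.WM Pool.Agent.J6H2.CL

/-- **Weight-monodromy for rigid-analytic varieties with projective reduction, for a set of primes
`l` of positive density.** Let `X` be a smooth rigid-analytic variety of dimension `n` over a
`p`-adic local field with residue field of `q` elements, with a strictly semistable formal model
whose special fibre is projective. `𝒪` is the system of the first terms of the `l`-adic weight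
spectral sequences, with the differential `d`, the operators `N` and `L` and their companions `N'`
and `Λ`, the Frobenius operator `F`, the Poincare pairing, and a projector `π` which commutes with
all these. Suppose `𝒪.Good p q n`: the known properties (a bigraded Lefschetz module with
differential, purity); the image of `π` is polarised (Weil's positivity of `Tr (x* x)`, for `x ≠ 0`
in the rational algebra generated by `π d` and `π δ`, `δ = [Λ, [N', d]]`); and the part of every
term `K^{r,s}` killed by `π` is multiplicity free: some operator commuting with `d` and `δ`, with
its complex conjugate as adjoint, has simple eigenvalues there, given by a rational polynomial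
which does not depend on `l` (for example `F`, if its eigenvalues are simple:
`Pool.Agent.J6H2.WM.simpleOn_frobenius`).

Then there is a set of primes `S` of positive density such that for all `l ∈ S`, `l ≠ p`, and all
`i` and `j` the eigenvalues of every Frobenius lift on `gr^M_j H^i(X_C, ℚ_l)` are `q`-Weil numbers of
weight `i + j`. (No hard Lefschetz theorem for `X`, no standard conjecture, and no algebraicity is
used.) -/
theorem result {p q n : ℕ} (𝒪 : Family) (h : 𝒪.Good p q n) :
    ∃ (S : Set ℕ) (δ : ℝ), 0 < δ ∧ HasPrimeDensity S δ ∧
      ∀ (l : ℕ) [Fact l.Prime], l ∈ S → l ≠ p → (𝒪.O l).MonodromyWeight q n :=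
  resD h

end Pool.Agent.Results.MP_0f76a4_ag.PrimesOfPositiveDensity
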