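import Pool.Agent.J6H90.TP.Loc
import Pool.Agent.J6H90.TP.PTPH
import Pool.Agent.J6H90.TP.PTCT
import Pool.Agent.J6H90.TP.PTEXP
import Pool.Agent.J6H90.TP.PTWS
import Pool.Agent.J6H90.TP.PPAIR
import Pool.Agent.J6H90.TP.PSTAR
import Pool.Agent.J6H90.TP.PDSTAR
import Pool.Agent.J6H90.TP.PCINT
import Pool.Agent.J6H90.TP.PCBIJ
import Pool.Agent.J6H90.WT.Fin
import Pool.Agent.J6H90.WT.PWS
import Pool.Agent.J6H90.WT.PDUAL
import Pool.Agent.J6H90.WT.PBC
import Pool.Agent.J6H90.WT.PLOG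
import Pool.Agent.J6H90.WT.PWMT
import Pool.Agent.J6H90.WT.PREL
import Pool.Agent.J6H90.WT.PCYCFIN
import Pool.Agent.J6H90.WT.PCYC

/-!
# The weight-monodromy property from the `a`-th powers of the traces of Frobenius

Let `X` be a smooth projective variety over a number field `K` and `V_ℓ = H^w(X, ℚ_ℓ)`, for all
primes `ℓ` (or the realisations of a motive of weight `w`), and let `W_ℓ` be the realisations of a
motive of weight `a w`, `a ≥ 1`. At the places `v` outside a finite set the number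
`b_v = tr (F_v | V_ℓ) ^ a - tr (F_v | W_ℓ)` is rational and does not depend on `ℓ`, and
`b_v ^ 2 ≤ C N(v) ^ (a w)`. The `W_ℓ` are assumed to be semisimple, but not the `V_ℓ`. Suppose that,
for a positive integer `d`, the number `d b_v ^ 2` is an integral multiple of `N(v) ^ (a w)` for `v`
in a set of upper density larger than `1 - 1 / (n ^ (2 a) + m ^ 2)`, where `n` and `m` are the ranks.

Then, at *every* finite place `v` of `K` and for every prime `ℓ` not below `v`: if `W_ℓ` satisfies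
the weight-monodromy conjecture at `v` (with the weight `a w`) then `V_ℓ` satisfies it (with the
weight `w`). For `W` one can take everything that is built from abelian varieties, at all places.

For example, let `W'` be a semisimple family of weight `w` for which the weight-monodromy conjecture
is known, and suppose that the traces of `F_v` on `V_ℓ` and `W'_ℓ` agree, at most places, up to
`a`-th roots of unity (say up to a sign) which may depend on `v` in an arbitrary way; then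
`W_ℓ = W'_ℓ ^ (⊗ a)` is such a family. If `w` is odd then the transfer theorem
`TransferAllPlaces` for `MP_898f40_nt` applies only if the traces are equal at most places; with
`a = 2` the theorem below allows congruences modulo `N(v) ^ w` between the square of the trace on
`V_ℓ` and the trace on `W_ℓ`.

Proof. The `a`-th tensor power of `V_ℓ` is compared with `W_ℓ` as in `TransferAllPlaces`; so it
satisfies the weight-monodromy property, and it remains to go back to `V_ℓ` (first part of the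
theorem). The inertia group acts unipotently on `V_ℓ` after a finite extension, since the traces are
then close to `n` and have the `a`-th power `n ^ a`; let `N` be the logarithm. If `x` is a vector of
weight `b` (a real number) with `N ^ r x ≠ 0` and `N ^ (r + 1) x = 0` then `x ^ (⊗ a)` is a vector of
weight `a b` with `N ^ (a r) (x ^ (⊗ a)) ≠ 0` and `N ^ (a r + 1) (x ^ (⊗ a)) = 0`, so `b ≤ w + r`; in
the same way for the dual representation. These two bounds imply that the weights are integers and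
the bijectivity of the powers of `N`.
-/

set_option autoImplicit false

namespace Pool.Agent.Results.MP_0f76a4_ag.TensorPowers

open NumberField IsDedekindDomain Filter Matrix Polynomial

/-- the absolute Galois group of the field `K`, with the Krull topology -/
abbrev AbsGal (K : Type) [Field K] : Type := Gal(AlgebraicClosure K/K)

section
variable {K : Type} [Field K]

/-- `g` belongs to the inertia group at the ideal `Q` of the ring of all algebraic integers. -/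
def InInertia (Q : Ideal (𝓞 (AlgebraicClosure K))) (g : AbsGal K) : Prop :=
  ∀ x : 𝓞 (AlgebraicClosure K), g • x - x ∈ Q

/-- `g` is an arithmetic Frobenius element at `Q`, for a residue field with `q` elements of the
place below `Q`. -/
def FrobeniusAt (Q : Ideal (𝓞 (AlgebraicClosure K))) (q : ℕ) (g : AbsGal K) : Prop :=
  ∀ x : 𝓞 (AlgebraicClosure K), g • x - x ^ q ∈ Q

/-- `Q` is a maximal ideal of the ring of all algebraic integers which lies above the finite
place `v` of `K`. -/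
def LiesAbove [NumberField K] (v : HeightOneSpectrum (𝓞 K))
    (Q : Ideal (𝓞 (AlgebraicClosure K))) : Prop :=
  Q.IsMaximal ∧ Q.comap (algebraMap (𝓞 K) (𝓞 (AlgebraicClosure K))) = v.asIdeal

/-- the matrix of `g` -/
noncomputable def mat {F : Type} [Field F] {n : ℕ} (ρ : AbsGal K →* GL (Fin n) F) (g : AbsGal K) :
    Matrix (Fin n) (Fin n) F :=
  (ρ g : GL (Fin n) F)

/-- The representation `ρ` is semisimple: every stable subspace has a stable complement. -/
def Semisimple {F : Type} [Field F] {n : ℕ} (ρ : AbsGal K →* GL (Fin n) F) : Prop :=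
  ∀ S : Submodule F (Fin n → F), (∀ g, ∀ x ∈ S, mat ρ g *ᵥ x ∈ S) →
    ∃ T : Submodule F (Fin n → F), (∀ g, ∀ x ∈ T, mat ρ g *ᵥ x ∈ T) ∧ IsCompl S T

end

/-- The part of weight `w` of the matrix `A`, for a residue field with `q` elements: the sum of the
generalised eigenspaces for the eigenvalues `z` with `|z| ^ 2 = q ^ w`, that is, the vectors which
are annihilated by a nonzero polynomial in `A` all of whose roots `z` satisfy `|z| ^ 2 = q ^ w`. -/
def weightPart {n : ℕ} (A : Matrix (Fin n) (Fin n) ℂ) (q : ℕ) (w : ℤ) : Set (Fin n → ℂ) :=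
  {x | ∃ p : ℂ[X], p ≠ 0 ∧ (∀ z, p.IsRoot z → ‖z‖ ^ 2 = (q : ℝ) ^ w) ∧ aeval A p *ᵥ x = 0}

/-- `N` is a monodromy operator of the `ℓ`-adic representation `ρ` at `Q`: it is nilpotent, it is the
logarithm of the action of an element of the inertia group at `Q`, and an open subgroup of the
inertia group acts through the exponentials of multiples of `N`. -/
def IsMonodromy {K : Type} [Field K] {ℓ : ℕ} [Fact ℓ.Prime] {n : ℕ}
    (ρ : AbsGal K →* GL (Fin n) ℚ_[ℓ]) (Q : Ideal (𝓞 (AlgebraicClosure K)))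
    (N : Matrix (Fin n) (Fin n) ℚ_[ℓ]) : Prop :=
  IsNilpotent N ∧ ∃ H : Subgroup (AbsGal K), IsOpen (H : Set (AbsGal K)) ∧
    (∃ g ∈ H, InInertia Q g ∧ mat ρ g = IsNilpotent.exp N) ∧
    ∀ g ∈ H, InInertia Q g → ∃ t : ℚ_[ℓ], mat ρ g = IsNilpotent.exp (t • N)

/-- The weight-monodromy property of the `ℓ`-adic representation `ρ` at `Q`, with the weight `w`
(`q` is the number of elements of the residue field of the place below `Q`). There is a monodromy
operator `N` such that for every geometric Frobenius element `g` at `Q` and every embedding `e` of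
`ℚ_ℓ` in `ℂ`, the eigenvalues of `g` have integral weights, and `N ^ j` is a bijection from the part
of weight `w + j` to the part of weight `w - j`, for every `j ≥ 0`. -/
def WeightMonodromy {K : Type} [Field K] {ℓ : ℕ} [Fact ℓ.Prime] {n : ℕ}
    (ρ : AbsGal K →* GL (Fin n) ℚ_[ℓ]) (w : ℤ) (q : ℕ) (Q : Ideal (𝓞 (AlgebraicClosure K))) :
    Prop :=
  ∃ N : Matrix (Fin n) (Fin n) ℚ_[ℓ], IsMonodromy ρ Q N ∧
    ∀ g, FrobeniusAt Q q g⁻¹ → ∀ e : ℚ_[ℓ] →+* ℂ,
      (∀ z ∈ spectrum ℂ ((mat ρ g).map e), ∃ j : ℤ, ‖z‖ ^ 2 = (q : ℝ) ^ (w + j)) ∧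
      ∀ j : ℕ, Set.BijOn (fun x => (N.map e) ^ j *ᵥ x)
        (weightPart ((mat ρ g).map e) q (w + j)) (weightPart ((mat ρ g).map e) q (w - j))

/-- the `a`-th tensor power of the matrix `A` (the rows and columns are numbered by the functions
from `Fin a` to `Fin n`): the entry at `(i, j)` is the product of the `A (i k) (j k)` -/
def tensorPower {F : Type} [Field F] {n : ℕ} (a : ℕ) (A : Matrix (Fin n) (Fin n) F) :
    Matrix (Fin (n ^ a)) (Fin (n ^ a)) F :=
  Matrix.of fun i j => ∏ k : Fin a,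
    A (finFunctionFinEquiv.symm i k) (finFunctionFinEquiv.symm j k)

/-- The `a`-th powers of the traces on `V` are close to the traces on `W`, with respect to the weight
`a w`: outside a finite set `B` of places the difference of the `a`-th power of the trace of a
geometric Frobenius element at `v` on `V_ℓ` and its trace on `W_ℓ` is a rational number `b_v` which
does not depend on `ℓ` (not below `v`), and `b_v ^ 2 ≤ C N(v) ^ (a w)`; for a positive integer `d`,
the number `d b_v ^ 2` is an integral multiple of `N(v) ^ (a w)`, except for the places `v` in a set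
of lower density `≤ θ`, where `θ (n ^ (2 a) + m ^ 2) < 1`. -/
def ClosePowers {K : Type} [Field K] [NumberField K] {n m : ℕ}
    (V : ∀ (ℓ : ℕ) [Fact ℓ.Prime], AbsGal K →* GL (Fin n) ℚ_[ℓ])
    (W : ∀ (ℓ : ℕ) [Fact ℓ.Prime], AbsGal K →* GL (Fin m) ℚ_[ℓ]) (a : ℕ) (w : ℤ) : Prop :=
  ∃ (B : Set (HeightOneSpectrum (𝓞 K))) (b : HeightOneSpectrum (𝓞 K) → ℚ) (C : ℝ) (d : ℕ) (θ : ℝ),
    B.Finite ∧
    (∀ (ℓ : ℕ) [Fact ℓ.Prime], ∀ v, v ∉ B → (ℓ : 𝓞 K) ∉ v.asIdeal → ∀ Q, LiesAbove v Q →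
      ∀ g, FrobeniusAt Q (Ideal.absNorm v.asIdeal) g →
        (mat (V ℓ) g⁻¹).trace ^ a - (mat (W ℓ) g⁻¹).trace = (b v : ℚ_[ℓ])) ∧
    (∀ v, v ∉ B → (b v : ℝ) ^ 2 ≤ C * (Ideal.absNorm v.asIdeal : ℝ) ^ (a * w)) ∧
    0 < d ∧ θ * ((n : ℝ) ^ (2 * a) + (m : ℝ) ^ 2) < 1 ∧
    ∃ᶠ x : ℕ in atTop, ({v : HeightOneSpectrum (𝓞 K) | Ideal.absNorm v.asIdeal ≤ x ∧
      ¬ ∃ c : ℤ, (d : ℚ) * b v ^ 2 = (Ideal.absNorm v.asIdeal : ℚ) ^ (a * w) * c}.ncard : ℝ) ≤
        θ * Nat.primeCounting x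

section bridge

open Pool.Agent.J6H90.WT

theorem wm_of_bij {n : ℕ} {A N : Matrix (Fin n) (Fin n) ℂ} {q : ℕ} {w : ℤ}
    (h1 : ∀ z ∈ spectrum ℂ A, ∃ j : ℤ, ‖z‖ ^ 2 = (q : ℝ) ^ (w + j))
    (h2 : ∀ j : ℕ, Set.BijOn (fun x => N ^ j *ᵥ x) (weightPart A q (w + j))
      (weightPart A q (w - j))) : WM A N q w := by
  refine ⟨h1, fun j _ => ⟨fun x hx hx0 => ?_, fun y hy => ?_⟩⟩
  · have h0 : (0 : Fin n → ℂ) ∈ weightPart A q (w + j) := (ws A (wt q (w + j))).zero_mem
    refine (h2 j).injOn hx h0 ?_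
    rw [hx0, Matrix.mulVec_zero]
  · obtain ⟨x, hx, hxy⟩ := (h2 j).surjOn hy
    exact ⟨x, hx, hxy⟩

theorem bij_of_wm {n : ℕ} {A N : Matrix (Fin n) (Fin n) ℂ} {q : ℕ} (hq : q ≠ 0) {w : ℤ}
    (hr : N * A = (q : ℂ) • (A * N)) (h : WM A N q w) (j : ℕ) :
    Set.BijOn (fun x => N ^ j *ᵥ x) (weightPart A q (w + j)) (weightPart A q (w - j)) := by
  have hq0 : (q : ℝ) ≠ 0 := Nat.cast_ne_zero.2 hq
  have hstep : ∀ (k : ℤ) (x : Fin n → ℂ), x ∈ ws A (wt q k) → N *ᵥ x ∈ ws A (wt q (k - 2)) := by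
    intro k x hx
    have h1 := ws3 n A N q (Nat.cast_ne_zero.2 hq) hr (wt q k) x hx
    have h2 : {z : ℂ | (q : ℂ) * z ∈ wt q k} = wt q (k - 2) := by
      ext z
      change ‖(q : ℂ) * z‖ ^ 2 = (q : ℝ) ^ k ↔ ‖z‖ ^ 2 = (q : ℝ) ^ (k - 2)
      rw [norm_mul, Complex.norm_natCast, mul_pow, zpow_sub₀ hq0, eq_div_iff (by positivity)]
      rw [mul_comm]
      rfl
    rwa [h2] at h1
  have hpow : ∀ (i : ℕ) (k : ℤ) (x : Fin n → ℂ), x ∈ ws A (wt q k) →
      N ^ i *ᵥ x ∈ ws A (wt q (k - 2 * i)) := by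
    intro i
    induction i with
    | zero =>
      intro k x hx
      rw [pow_zero, Matrix.one_mulVec]
      simpa using hx
    | succ i ih =>
      intro k x hx
      have h1 := hstep _ _ (ih k x hx)
      rw [Matrix.mulVec_mulVec, ← pow_succ'] at h1
      have h2 : k - 2 * (i : ℤ) - 2 = k - 2 * ((i + 1 : ℕ) : ℤ) := by
        push_cast
        ring
      rwa [h2] at h1
  refine ⟨fun x hx => ?_, ?_, ?_⟩
  · have h1 := hpow j (w + j) x hx
    have h2 : w + (j : ℤ) - 2 * j = w - j := by ring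
    rw [h2] at h1
    exact h1
  · intro x hx y hy hxy
    rcases Nat.eq_zero_or_pos j with rfl | hj
    · change N ^ 0 *ᵥ x = N ^ 0 *ᵥ y at hxy
      rwa [pow_zero, Matrix.one_mulVec, Matrix.one_mulVec] at hxy
    · have h1 := (h.2 j hj).1 (x - y) (Submodule.sub_mem _ hx hy) (by
        rw [Matrix.mulVec_sub]
        exact sub_eq_zero.2 hxy)
      exact sub_eq_zero.1 h1
  · intro y hy
    rcases Nat.eq_zero_or_pos j with rfl | hj
    · refine ⟨y, ?_, ?_⟩
      · simpa using hy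
      · change N ^ 0 *ᵥ y = y
        rw [pow_zero, Matrix.one_mulVec]
    · obtain ⟨x, hx, hxy⟩ := (h.2 j hj).2 y hy
      exact ⟨x, hx, hxy⟩

theorem mono_of {K : Type} [Field K] [NumberField K] {ℓ : ℕ} [Fact ℓ.Prime] {n : ℕ}
    {ρ : AbsGal K →* GL (Fin n) ℚ_[ℓ]} {w : ℤ} {q : ℕ} {Q : Ideal (𝓞 (AlgebraicClosure K))}
    (h : WeightMonodromy ρ w q Q) : MonoWM (Pool.Agent.R401.Tr9.mh ρ) w q Q := by
  obtain ⟨N, ⟨hN, H, hH, h1, h2⟩, h3⟩ := h
  refine ⟨N, H, hN, hH, h1, h2, fun g hg e => ?_⟩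
  have h4 := h3 g⁻¹ (by rw [inv_inv]; exact hg) e
  exact wm_of_bij h4.1 h4.2

end bridge

section steps

open Pool.Agent.J6H90.WT Pool.Agent.J6H90.TP

/-- the descent from the tensor power -/
theorem descent {K : Type} [Field K] [NumberField K] {ℓ : ℕ} [Fact ℓ.Prime] {n a : ℕ}
    (ρ : AbsGal K →* GL (Fin n) ℚ_[ℓ]) (hρ : Continuous ρ) (ha : 0 < a)
    (ρT : AbsGal K →* GL (Fin (n ^ a)) ℚ_[ℓ]) (hT : ∀ g, mat ρT g = tensorPower a (mat ρ g))
    (w : ℤ) (v : HeightOneSpectrum (𝓞 K)) (Q : Ideal (𝓞 (AlgebraicClosure K)))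
    (hQ : LiesAbove v Q) (hℓ : (ℓ : 𝓞 K) ∉ v.asIdeal)
    (hWM : MonoWM (Pool.Agent.R401.Tr9.mh ρT) (a * w) (Ideal.absNorm v.asIdeal) Q) :
    WeightMonodromy ρ w (Ideal.absNorm v.asIdeal) Q := by
  have hcyc : S_CYC := cyc cycfin log
  have hrel : S_REL := rel log
  have hq : 2 ≤ Ideal.absNorm v.asIdeal := by
    have h0 : Ideal.absNorm v.asIdeal ≠ 0 := fun h0 => v.ne_bot (Ideal.absNorm_eq_zero_iff.1 h0)
    have h1 : Ideal.absNorm v.asIdeal ≠ 1 := fun h1 =>
      v.isPrime.ne_top (Ideal.absNorm_eq_one_iff.1 h1)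
    omega
  have hq0 : Ideal.absNorm v.asIdeal ≠ 0 := by omega
  have hℓQ : (ℓ : 𝓞 (AlgebraicClosure K)) ∉ Q := by
    intro h
    apply hℓ
    rwa [← hQ.2, Ideal.mem_comap, map_natCast]
  obtain ⟨N, H, hN, hH, h1, h2, h3⟩ := loct tph (texp tph) (star tph (texp tph) tws)
    (dstar tph (texp tph) tws pair) cint cbij log hcyc hrel
    (ρ := Pool.Agent.R401.Tr9.mh ρ) (Pool.Agent.R401.Sup.continuous_mt ρ hρ) ha
    (ρT := Pool.Agent.R401.Tr9.mh ρT) hT hQ.1 hq hℓQ hWM
  refine ⟨N, ⟨hN, H, hH, h1, h2⟩, fun g hg e => ?_⟩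
  obtain ⟨h4, h5⟩ := h3 g⁻¹ hg
  have h6 := h5 e
  rw [inv_inv] at h4 h6
  refine ⟨h6.1, fun j => bij_of_wm hq0 ?_ h6 j⟩
  rw [← mul_map, h4, smul_map, mul_map, map_natCast]

/-- the tensor power of a representation -/
noncomputable def tens {K : Type} [Field K] {F : Type} [Field F] {n : ℕ} (a : ℕ)
    (ρ : AbsGal K →* GL (Fin n) F) : AbsGal K →* GL (Fin (n ^ a)) F :=
  (Units.map (tpm tph F n a)).comp ρ

theorem continuous_tens {K : Type} [Field K] {F : Type} [Field F] [TopologicalSpace F]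
    [IsTopologicalRing F] {n : ℕ} (a : ℕ) {ρ : AbsGal K →* GL (Fin n) F} (hρ : Continuous ρ) :
    Continuous (tens a ρ) := by
  refine Units.continuous_iff.2 ⟨?_, ?_⟩
  · exact (tct F n a).comp (Units.continuous_val.comp hρ)
  · exact (tct F n a).comp (Units.continuous_val.comp (continuous_inv.comp hρ))

end steps

/-- **Weight-monodromy from powers of the traces of Frobenius.** -/
theorem result {K : Type} [Field K] [NumberField K] {n m : ℕ} (a : ℕ) (ha : 0 < a) (w : ℤ) :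
    -- the transfer from `W` to `V`
    (∀ (V : ∀ (ℓ : ℕ) [Fact ℓ.Prime], AbsGal K →* GL (Fin n) ℚ_[ℓ])
      (W : ∀ (ℓ : ℕ) [Fact ℓ.Prime], AbsGal K →* GL (Fin m) ℚ_[ℓ]),
      (∀ (ℓ : ℕ) [Fact ℓ.Prime], Continuous (V ℓ)) →
      (∀ (ℓ : ℕ) [Fact ℓ.Prime], Continuous (W ℓ) ∧ Semisimple (W ℓ)) →
      ClosePowers V W a w →
      ∀ (v : HeightOneSpectrum (𝓞 K)) (Q : Ideal (𝓞 (AlgebraicClosure K))), LiesAbove v Q →
      ∀ (ℓ : ℕ) [Fact ℓ.Prime], (ℓ : 𝓞 K) ∉ v.asIdeal →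
        WeightMonodromy (W ℓ) (a * w) (Ideal.absNorm v.asIdeal) Q →
        WeightMonodromy (V ℓ) w (Ideal.absNorm v.asIdeal) Q) ∧
    -- the descent from a tensor power
    ∀ (ℓ : ℕ) [Fact ℓ.Prime] (ρ : AbsGal K →* GL (Fin n) ℚ_[ℓ])
      (ρ' : AbsGal K →* GL (Fin (n ^ a)) ℚ_[ℓ]), Continuous ρ →
      (∀ g, mat ρ' g = tensorPower a (mat ρ g)) →
      ∀ (v : HeightOneSpectrum (𝓞 K)) (Q : Ideal (𝓞 (AlgebraicClosure K))), LiesAbove v Q →
      (ℓ : 𝓞 K) ∉ v.asIdeal →
        WeightMonodromy ρ' (a * w) (Ideal.absNorm v.asIdeal) Q →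
        WeightMonodromy ρ w (Ideal.absNorm v.asIdeal) Q := by
  refine ⟨?_, fun ℓ _ ρ ρ' hρ hT v Q hQ hℓ hWM =>
    descent ρ hρ ha ρ' hT w v Q hQ hℓ (mono_of hWM)⟩
  intro V W hV hW ⟨B, b, C, d, θ, hB, htr, hC, hd, hθ, hdiv⟩ v Q hQ ℓ _ hℓ hWM
  open Pool.Agent.J6H90.WT Pool.Agent.J6H90.TP in
  have hcyc : S_CYC := cyc cycfin log
  have hrel : S_REL := rel log
  have hwmt : S_WMT := wmt ws1 ws2 ws3 ws4 ws5 ws6 dk di
  obtain ⟨u, φ, U, hw, hUn, hUo, hU, hφ⟩ := Pool.Agent.R401.Tr7.family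
    (fun (ℓ : ℕ) [Fact ℓ.Prime] => tens a (V ℓ)) (fun ℓ _ => continuous_tens a (hV ℓ)) W
    (fun ℓ _ => (hW ℓ).1) B hB b (a * w) (by
      rintro ℓ _ v hv hℓ g ⟨Q, hQ, hQv, hg⟩
      rw [← htr ℓ v hv hℓ Q ⟨hQ, hQv⟩ g hg]
      congr 1
      exact (tph ℚ_[ℓ] n a).2.2.1 _) C hC θ (by
      push_cast
      rwa [← pow_mul, mul_comm a 2]) hd (by
      refine (hdiv.and_eventually (Nat.tendsto_primeCounting.eventually_gt_atTop 0)).mono ?_
      rintro N ⟨h1, h3⟩
      have h4 : (0 : ℝ) < (Nat.primeCounting N : ℝ) := by exact_mod_cast h3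
      unfold Pool.Agent.W401.Cheb.dens
      rw [div_le_iff₀ h4]
      exact h1)
  have hq : 2 ≤ Ideal.absNorm v.asIdeal := by
    have h0 : Ideal.absNorm v.asIdeal ≠ 0 := fun h0 => v.ne_bot (Ideal.absNorm_eq_zero_iff.1 h0)
    have h1 : Ideal.absNorm v.asIdeal ≠ 1 := fun h1 =>
      v.isPrime.ne_top (Ideal.absNorm_eq_one_iff.1 h1)
    omega
  have hℓQ : (ℓ : 𝓞 (AlgebraicClosure K)) ∉ Q := by
    intro h
    apply hℓ
    rwa [← hQ.2, Ideal.mem_comap, map_natCast]
  have hQm := hQ.1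
  obtain ⟨σ, hσ⟩ := Pool.Agent.W352.ChAbs.exists_frob v Q hQ.2
  obtain ⟨N, H, hN, hH, h1, h2, h3⟩ := wm_fam log hcyc hrel bc hwmt
    (V := Pool.Agent.R401.Tr9.mh (tens a (V ℓ)))
    (Pool.Agent.R401.Sup.continuous_mt _ (continuous_tens a (hV ℓ)))
    (W := Pool.Agent.R401.Tr9.mh (W ℓ)) (Pool.Agent.R401.Sup.continuous_mt (W ℓ) (hW ℓ).1)
    hUn hUo hU (hφ ℓ) hQ.1 hq hσ hℓQ hw (mono_of hWM) (nondeg (W ℓ) (hW ℓ).2)
  exact descent (V ℓ) (hV ℓ) ha (tens a (V ℓ)) (fun g => rfl) w v Q hQ hℓ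
    ⟨N, H, hN, hH, h1, h2, fun g hg => (h3 g hg).2⟩

end Pool.Agent.Results.MP_0f76a4_ag.TensorPowers
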